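import Pool.Agent.EVF.StmtsG

set_option autoImplicit false

/-!
# Squad EVF, row HSM: the integral forms with finite norm are a lattice
-/

namespace Pool.Agent.EVF.H24

open MvPolynomial MeasureTheory Matrix

/-- the shape of the kernel at a good point -/
def Shp {r : ℕ} (K : Vec r → Vec r → ℂ) : Prop :=
  ∃ (R : Finset ℂ) (a : Vec r → ℂ → ℂ) (d : ℂ → ℝ), (∀ y, 0 ≤ d y) ∧
    (∀ q q' y, a (q + q') y = a q y + a q' y) ∧ (∀ (c : ℤ) q y, a (c • q) y = c * a q y) ∧
    ∀ q q', K q q' = ∑ y ∈ R, a q y * star (a q' y) / ((d y : ℝ) : ℂ)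

section
variable {r : ℕ} {K : Vec r → Vec r → ℂ}

theorem norm_diag {R : Finset ℂ} {a : Vec r → ℂ → ℂ} {d : ℂ → ℝ} (hd : ∀ y, 0 ≤ d y)
    (hK : ∀ q q', K q q' = ∑ y ∈ R, a q y * star (a q' y) / ((d y : ℝ) : ℂ)) (q : Vec r) :
    ‖K q q‖ = ∑ y ∈ R, ‖a q y‖ ^ 2 / d y := by
  have h : K q q = ((∑ y ∈ R, ‖a q y‖ ^ 2 / d y : ℝ) : ℂ) := by
    rw [hK, Complex.ofReal_sum]
    refine Finset.sum_congr rfl fun y _ => ?_
    have h1 : a q y * star (a q y) = ((‖a q y‖ ^ 2 : ℝ) : ℂ) := by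
      have h2 := Complex.mul_conj (a q y)
      rw [Complex.normSq_eq_norm_sq] at h2
      exact h2
    rw [h1, Complex.ofReal_div]
  rw [h, Complex.norm_real, Real.norm_eq_abs, abs_of_nonneg]
  exact Finset.sum_nonneg fun y _ => div_nonneg (sq_nonneg _) (hd y)

theorem bound1 (h : Shp K) (q q' : Vec r) : ‖K q q'‖ ≤ ‖K q q‖ + ‖K q' q'‖ := by
  obtain ⟨R, a, d, hd, -, -, hK⟩ := h
  rw [norm_diag hd hK, norm_diag hd hK, ← Finset.sum_add_distrib, hK]
  refine (norm_sum_le _ _).trans (Finset.sum_le_sum fun y _ => ?_)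
  rw [norm_div, norm_mul, norm_star, Complex.norm_real, Real.norm_eq_abs, abs_of_nonneg (hd y),
    ← add_div]
  apply div_le_div_of_nonneg_right _ (hd y)
  nlinarith [sq_nonneg (‖a q y‖ - ‖a q' y‖), sq_nonneg (‖a q y‖), sq_nonneg (‖a q' y‖)]

theorem bound2 (h : Shp K) (q q' : Vec r) :
    ‖K (q + q') (q + q')‖ ≤ 2 * ‖K q q‖ + 2 * ‖K q' q'‖ := by
  obtain ⟨R, a, d, hd, ha, -, hK⟩ := h
  rw [norm_diag hd hK, norm_diag hd hK, norm_diag hd hK, Finset.mul_sum, Finset.mul_sum,
    ← Finset.sum_add_distrib]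
  refine Finset.sum_le_sum fun y _ => ?_
  rw [ha]
  have h1 : ‖a q y + a q' y‖ ^ 2 ≤ 2 * ‖a q y‖ ^ 2 + 2 * ‖a q' y‖ ^ 2 := by
    have h2 := norm_add_le (a q y) (a q' y)
    have h3 := norm_nonneg (a q y + a q' y)
    nlinarith [sq_nonneg (‖a q y‖ - ‖a q' y‖)]
  have h4 : 2 * (‖a q y‖ ^ 2 / d y) + 2 * (‖a q' y‖ ^ 2 / d y) =
      (2 * ‖a q y‖ ^ 2 + 2 * ‖a q' y‖ ^ 2) / d y := by ring
  rw [h4]
  exact div_le_div_of_nonneg_right h1 (hd y)

theorem bound3 (h : Shp K) (c : ℤ) (q : Vec r) :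
    ‖K (c • q) (c • q)‖ = (c : ℝ) ^ 2 * ‖K q q‖ := by
  obtain ⟨R, a, d, hd, -, ha, hK⟩ := h
  rw [norm_diag hd hK, norm_diag hd hK, Finset.mul_sum]
  refine Finset.sum_congr rfl fun y _ => ?_
  rw [ha, norm_mul, mul_pow, Complex.norm_intCast, sq_abs]
  ring

end

/-- **HSM** -/
theorem hsm (hker : KerStmt) (hmes : MesStmt) : HsmStmt := by
  intro r s N hg hsh hred
  obtain ⟨hfin, hme⟩ := hmes r s N hg hsh hred
  have hgood : ∀ᵐ x : ℂ, Shp (fun q q' => kernel N q q' x) := by
    have h1 : ∀ᵐ x : ℂ, x ∉ {x : ℂ | (Helper90Frey.rts (cmat N).det x).card ≠ s.deg / s.v} :=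
      hfin.countable.ae_notMem volume
    filter_upwards [h1] with x hx
    have hx' : (Helper90Frey.rts (cmat N).det x).card = s.deg / s.v := not_not.1 hx
    obtain ⟨W, -, hW⟩ := hker r s N hg hsh x hx'
    refine ⟨Helper90Frey.rts (cmat N).det x,
      fun q y => ∑ i, Helper90Frey.val (cpx (q i)) x y * W y i,
      fun y => ‖Helper90Frey.val (pderiv 1 (cmat N).det) x y‖ ^ 2,
      fun y => sq_nonneg _, ?_, ?_, hW⟩
    · intro q q' y
      rw [← Finset.sum_add_distrib]
      refine Finset.sum_congr rfl fun i _ => ?_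
      rw [← add_mul]
      congr 1
      unfold Helper90Frey.val cpx
      rw [Pi.add_apply, map_add, map_add]
    · intro c q y
      rw [Finset.mul_sum]
      refine Finset.sum_congr rfl fun i _ => ?_
      rw [← mul_assoc]
      congr 1
      unfold Helper90Frey.val cpx
      rw [Pi.smul_apply, map_zsmul, map_zsmul, zsmul_eq_mul]
  refine ⟨?_, ?_⟩
  · intro q hq q' hq'
    refine Integrable.mono' (hq.2.norm.add hq'.2.norm) (hme q q') ?_
    filter_upwards [hgood] with x hx
    exact bound1 hx q q'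
  · refine ⟨{ carrier := Hol s N
              add_mem' := ?_
              zero_mem' := ?_
              smul_mem' := ?_ }, fun q => Iff.rfl⟩
    · intro q q' hq hq'
      refine ⟨?_, ?_⟩
      · intro i e he
        rcases Finset.mem_union.1 (MvPolynomial.support_add he) with h | h
        · exact hq.1 i e h
        · exact hq'.1 i e h
      · refine Integrable.mono' ((hq.2.norm.const_mul 2).add (hq'.2.norm.const_mul 2))
          (hme _ _) ?_
        filter_upwards [hgood] with x hx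
        exact bound2 hx q q'
    · refine ⟨?_, ?_⟩
      · intro i e he
        simp at he
      · have h0 : Integrable (fun _ : ℂ => (0 : ℝ)) := integrable_zero _ _ _
        refine Integrable.mono' h0 (hme _ _) ?_
        filter_upwards [hgood] with x hx
        have h1 := bound3 hx 0 0
        rw [zero_smul] at h1
        simp only [Int.cast_zero, ne_eq, OfNat.ofNat_ne_zero, not_false_eq_true, zero_pow,
          zero_mul] at h1
        exact h1.le
    · intro c q hq
      refine ⟨?_, ?_⟩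
      · intro i e he
        exact hq.1 i e (MvPolynomial.support_smul he)
      · refine Integrable.mono' (hq.2.norm.const_mul ((c : ℝ) ^ 2)) (hme _ _) ?_
        filter_upwards [hgood] with x hx
        exact (bound3 hx c q).le

end Pool.Agent.EVF.H24
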