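import Pool.Agent.EVF.StmtsR

/-!
# Squad EVF, part R, row KPT
-/

namespace Pool.Agent.EVF.H24

open MvPolynomial Pool.Agent.EVF

/-- the restriction of a form to a horizontal line -/
noncomputable def Rb (φ : MvPolynomial (Fin 2) ℤ) (b : ℤ) : Polynomial ℤ :=
  MvPolynomial.aeval ![Polynomial.X, Polynomial.C b] φ

theorem Rb_eq (φ : MvPolynomial (Fin 2) ℤ) (b : ℤ) :
    Rb φ b = ∑ d ∈ φ.support,
      Polynomial.C (φ.coeff d * b ^ d 1) * Polynomial.X ^ d 0 := by
  rw [Rb, MvPolynomial.aeval_def, MvPolynomial.eval₂_eq']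
  refine Finset.sum_congr rfl fun d _ => ?_
  rw [Fin.prod_univ_two]
  simp only [Matrix.cons_val_zero, Matrix.cons_val_one, Polynomial.algebraMap_eq, map_mul, map_pow]
  ring

theorem bv_eq (φ : MvPolynomial (Fin 2) ℤ) (a b : ℤ) :
    bv φ a b = ∑ d ∈ φ.support, φ.coeff d * (a ^ d 0 * b ^ d 1) := by
  rw [bv, MvPolynomial.eval_eq']
  refine Finset.sum_congr rfl fun d _ => ?_
  rw [Fin.prod_univ_two]
  simp

theorem Rb_eval (φ : MvPolynomial (Fin 2) ℤ) (a b : ℤ) : (Rb φ b).eval a = bv φ a b := by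
  rw [Rb_eq, Polynomial.eval_finsetSum, bv_eq]
  refine Finset.sum_congr rfl fun d _ => ?_
  simp only [Polynomial.eval_mul, Polynomial.eval_C, Polynomial.eval_pow, Polynomial.eval_X]
  ring

theorem deg_supp {φ : MvPolynomial (Fin 2) ℤ} {s : ℕ} (hφ : φ.IsHomogeneous s) {d : Fin 2 →₀ ℕ}
    (hd : d ∈ φ.support) : d 0 + d 1 = s := by
  have h : Finsupp.weight (fun _ : Fin 2 => (1 : ℕ)) d = s :=
    hφ (MvPolynomial.mem_support_iff.1 hd)
  rw [← Finsupp.degree_eq_weight_one, Finsupp.degree_eq_sum, Fin.sum_univ_two] at h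
  exact h

theorem Rb_deg {φ : MvPolynomial (Fin 2) ℤ} {s : ℕ} (hφ : φ.IsHomogeneous s)
    (h0 : bv φ 1 0 ≠ 0) (b : ℤ) :
    (Rb φ b).natDegree = s ∧ (Rb φ b).leadingCoeff = bv φ 1 0 := by
  have hc : (Rb φ b).coeff s = bv φ 1 0 := by
    rw [Rb_eq, bv_eq, Polynomial.finsetSum_coeff]
    refine Finset.sum_congr rfl fun d hd => ?_
    have h := deg_supp hφ hd
    rw [Polynomial.coeff_C_mul, Polynomial.coeff_X_pow]
    by_cases h1 : d 1 = 0
    · rw [if_pos (by omega), h1]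
      simp
    · rw [if_neg (by omega), zero_pow h1]
      simp
  have hle : (Rb φ b).natDegree ≤ s := by
    rw [Rb_eq]
    refine Polynomial.natDegree_sum_le_of_forall_le _ _ fun d hd => ?_
    have h := deg_supp hφ hd
    exact (Polynomial.natDegree_C_mul_X_pow_le _ _).trans (by omega)
  have hd : (Rb φ b).natDegree = s :=
    le_antisymm hle (Polynomial.le_natDegree_of_ne_zero (by rw [hc]; exact h0))
  exact ⟨hd, by rw [Polynomial.leadingCoeff, hd, hc]⟩

/-- one prime power is large -/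
theorem exists_prime (K m w H : ℕ) (ε : ℝ) (hK : 1 ≤ K) (hw : K.primeFactors.card ≤ w)
    (hw1 : 1 ≤ w) (hH : 1 ≤ H) (hε : 0 < ε)
    (h : (H : ℝ) ^ ε < kPart K m) :
    ∃ p ∈ K.primeFactors, (H : ℝ) ^ (ε / w) < ((p ^ m.factorization p : ℕ) : ℝ) := by
  by_contra hcon
  push Not at hcon
  have hw0 : (0 : ℝ) < w := by exact_mod_cast hw1
  have hH1 : (1 : ℝ) ≤ H := by exact_mod_cast hH
  have hge : (1 : ℝ) ≤ (H : ℝ) ^ (ε / w) := Real.one_le_rpow hH1 (by positivity)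
  have h1 : (kPart K m : ℝ) ≤ ((H : ℝ) ^ (ε / w)) ^ w := by
    rw [kPart, Nat.cast_prod]
    calc ∏ p ∈ m.primeFactors.filter (fun p => p ∣ K), ((p ^ m.factorization p : ℕ) : ℝ)
        ≤ ∏ _p ∈ m.primeFactors.filter (fun p => p ∣ K), (H : ℝ) ^ (ε / w) := by
          refine Finset.prod_le_prod (fun p _ => Nat.cast_nonneg _) fun p hp => ?_
          rw [Finset.mem_filter] at hp
          exact hcon p (Nat.mem_primeFactors.2 ⟨Nat.prime_of_mem_primeFactors hp.1, hp.2, by omega⟩)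
      _ = ((H : ℝ) ^ (ε / w)) ^ (m.primeFactors.filter (fun p => p ∣ K)).card := by
          rw [Finset.prod_const]
      _ ≤ ((H : ℝ) ^ (ε / w)) ^ w := by
          refine pow_le_pow_right₀ hge (le_trans (Finset.card_le_card fun p hp => ?_) hw)
          rw [Finset.mem_filter] at hp
          exact Nat.mem_primeFactors.2 ⟨Nat.prime_of_mem_primeFactors hp.1, hp.2, by omega⟩
  have h2 : ((H : ℝ) ^ (ε / w)) ^ w = (H : ℝ) ^ ε := by
    rw [← Real.rpow_natCast, ← Real.rpow_mul (by positivity), div_mul_cancel₀ _ hw0.ne']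
  rw [h2] at h1
  exact absurd h (not_lt.2 h1)

theorem SB_card (H : ℕ) : (SB H).Finite ∧ ((SB H).ncard : ℝ) ≤ (2 * H + 1) ^ 2 := by
  have h : SB H = ↑(Finset.Icc (-(H : ℤ)) H ×ˢ Finset.Icc (-(H : ℤ)) H) := by
    ext ⟨a, b⟩
    rw [SB, Set.mem_ofPred_eq, Finset.mem_coe, Finset.mem_product, Finset.mem_Icc, Finset.mem_Icc,
      abs_le, abs_le]
  have hc : (Finset.Icc (-(H : ℤ)) H).card = 2 * H + 1 := by
    rw [Int.card_Icc]
    omega
  constructor
  · rw [h]; exact Finset.finite_toSet _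
  · rw [h, Set.ncard_coe_finset, Finset.card_product, hc]
    push_cast
    nlinarith

theorem kpt : KptStmt := by
  classical
  intro φ s K hφ h0 hs hK ε hε
  set w := max K.primeFactors.card 1 with hw
  have hw1 : 1 ≤ w := le_max_right _ _
  have hw0 : (0 : ℝ) < w := by exact_mod_cast hw1
  set θ := ε / w with hθ
  have hθ0 : 0 < θ := by positivity
  set D := s * (s + 1) / 2 with hD
  have hD1 : 1 ≤ D := by
    have : 2 ≤ s * (s + 1) := by nlinarith
    omega
  have hD0 : (0 : ℝ) < D := by exact_mod_cast hD1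
  set A := (bv φ 1 0).natAbs with hA
  have hA1 : 1 ≤ A := Int.natAbs_pos.2 h0
  set η := min (θ / (2 * D)) (1 / 2) with hη
  have hη0 : 0 < η := lt_min (by positivity) (by norm_num)
  have hη1 : η ≤ 1 / 2 := min_le_right _ _
  have hηD : η * D ≤ θ / 2 := by
    calc η * D ≤ θ / (2 * D) * D := by
          exact mul_le_mul_of_nonneg_right (min_le_left _ _) hD0.le
      _ = θ / 2 := by field_simp
  obtain ⟨H0, hH0⟩ : ∃ H0 : ℕ, (A : ℝ) ^ (2 / θ) ≤ H0 := exists_nat_ge _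
  set C : ℝ := 21 * w * s + (2 * H0 + 1) ^ 2 with hC
  refine ⟨C, η, hη0, fun H hH => ?_⟩
  have hH1 : (1 : ℝ) ≤ H := by exact_mod_cast hH
  have hHp : (0 : ℝ) < H := by linarith
  have hpow1 : (1 : ℝ) ≤ (H : ℝ) ^ (2 - η) := Real.one_le_rpow hH1 (by linarith)
  have hCp : 0 ≤ C := by positivity
  set S := {x : ℤ × ℤ | x ∈ SB H ∧ bv φ x.1 x.2 ≠ 0 ∧
        (H : ℝ) ^ ε < kPart K (bv φ x.1 x.2).natAbs} with hS
  have hSS : S ⊆ SB H := fun x hx => hx.1
  by_cases hbig : H < H0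
  · have h1 : (S.ncard : ℝ) ≤ (2 * H + 1) ^ 2 := by
      refine le_trans ?_ (SB_card H).2
      exact_mod_cast Set.ncard_le_ncard hSS (SB_card H).1
    have h2 : ((2 : ℝ) * H + 1) ^ 2 ≤ (2 * H0 + 1) ^ 2 := by
      have : (H : ℝ) ≤ H0 := by exact_mod_cast hbig.le
      gcongr
    have h3 : ((2 : ℝ) * H0 + 1) ^ 2 ≤ C := by
      rw [hC]
      have : (0 : ℝ) ≤ 21 * w * s := by positivity
      linarith
    calc (S.ncard : ℝ) ≤ C := by linarith
      _ ≤ C * (H : ℝ) ^ (2 - η) := le_mul_of_one_le_right hCp hpow1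
  · push Not at hbig
    -- the size of `L`
    set L := ⌊(H : ℝ) ^ η⌋₊ with hL
    have hHη1 : (1 : ℝ) ≤ (H : ℝ) ^ η := Real.one_le_rpow hH1 hη0.le
    have hL1 : 1 ≤ L := Nat.one_le_floor_iff _ |>.2 hHη1
    have hLle : (L : ℝ) ≤ (H : ℝ) ^ η := Nat.floor_le (by positivity)
    have hLge : (H : ℝ) ^ η ≤ 2 * L := by
      have h1 := Nat.lt_floor_add_one ((H : ℝ) ^ η)
      have h2 : (1 : ℝ) ≤ L := by exact_mod_cast hL1
      rw [← hL] at h1
      linarith
    have hAH : (A : ℝ) ≤ (H : ℝ) ^ (θ / 2) := by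
      have h1 : (A : ℝ) ^ (2 / θ) ≤ H := hH0.trans (by exact_mod_cast hbig)
      have h2 : ((A : ℝ) ^ (2 / θ)) ^ (θ / 2) ≤ (H : ℝ) ^ (θ / 2) :=
        Real.rpow_le_rpow (by positivity) h1 (by positivity)
      rw [← Real.rpow_mul (by positivity)] at h2
      have h3 : 2 / θ * (θ / 2) = 1 := by field_simp
      rw [h3, Real.rpow_one] at h2
      exact h2
    have hAL : ((A * L ^ D : ℕ) : ℝ) ≤ (H : ℝ) ^ θ := by
      push_cast
      have h1 : (L : ℝ) ^ D ≤ (H : ℝ) ^ (θ / 2) := by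
        calc (L : ℝ) ^ D ≤ ((H : ℝ) ^ η) ^ D := by gcongr
          _ = (H : ℝ) ^ (η * D) := by rw [← Real.rpow_natCast, ← Real.rpow_mul (by positivity)]
          _ ≤ (H : ℝ) ^ (θ / 2) := Real.rpow_le_rpow_of_exponent_le hH1 hηD
      calc (A : ℝ) * (L : ℝ) ^ D ≤ (H : ℝ) ^ (θ / 2) * (H : ℝ) ^ (θ / 2) := by gcongr
        _ = (H : ℝ) ^ θ := by rw [← Real.rpow_add hHp, add_halves]
    -- the moduli
    have hex : ∀ p : ℕ, p ∈ K.primeFactors → ∃ j : ℕ, (H : ℝ) ^ θ < ((p ^ j : ℕ) : ℝ) := by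
      intro p hp
      have hp2 : (1 : ℝ) < p := by exact_mod_cast (Nat.prime_of_mem_primeFactors hp).one_lt
      obtain ⟨j, hj⟩ := pow_unbounded_of_one_lt ((H : ℝ) ^ θ) hp2
      exact ⟨j, by push_cast; exact hj⟩
    let j : ℕ → ℕ := fun p => if hp : p ∈ K.primeFactors then Nat.find (hex p hp) else 0
    have hj : ∀ p ∈ K.primeFactors, (H : ℝ) ^ θ < ((p ^ j p : ℕ) : ℝ) := by
      intro p hp
      have : j p = Nat.find (hex p hp) := dif_pos hp
      rw [this]
      exact Nat.find_spec (hex p hp)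
    have hjmin : ∀ p ∈ K.primeFactors, ∀ i : ℕ, (H : ℝ) ^ θ < ((p ^ i : ℕ) : ℝ) → j p ≤ i := by
      intro p hp i hi
      have : j p = Nat.find (hex p hp) := dif_pos hp
      rw [this]
      exact Nat.find_min' (hex p hp) hi
    let T : ℕ → ℤ → Set ℤ := fun p b => {a : ℤ | |a| ≤ (H : ℤ) ∧
      ((p ^ j p : ℕ) : ℤ) ∣ (Rb φ b).eval a}
    have hTfin : ∀ p b, (T p b).Finite := by
      intro p b
      refine (Finset.finite_toSet (Finset.Icc (-(H : ℤ)) H)).subset fun a ha => ?_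
      rw [Finset.mem_coe, Finset.mem_Icc, ← abs_le]
      exact ha.1
    have hTcard : ∀ p ∈ K.primeFactors, ∀ b, (T p b).ncard ≤ s * ((2 * H + 1) / L + 1) := by
      intro p hp b
      obtain ⟨hd, hl⟩ := Rb_deg hφ h0 b
      refine Pool.Agent.RAD.H18.uct (Rb φ b) s L H (p ^ j p) hd hs hL1 ?_
      rw [hl, ← hA, ← hD]
      exact_mod_cast lt_of_le_of_lt hAL (hj p hp)
    let FF : Finset (ℤ × ℤ) := K.primeFactors.biUnion fun p =>
      (Finset.Icc (-(H : ℤ)) H).biUnion fun b => ((hTfin p b).toFinset).image fun a => (a, b)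
    have hsub : S ⊆ ↑FF := by
      rintro ⟨a, b⟩ ⟨hab, hne, hk⟩
      obtain ⟨p, hp, hpk⟩ := exists_prime K _ w H ε hK (le_max_left _ _) hw1 hH hε hk
      rw [Finset.mem_coe, Finset.mem_biUnion]
      refine ⟨p, hp, ?_⟩
      rw [Finset.mem_biUnion]
      refine ⟨b, ?_, ?_⟩
      · rw [Finset.mem_Icc, ← abs_le]; exact hab.2
      · rw [Finset.mem_image]
        refine ⟨a, ?_, rfl⟩
        rw [Set.Finite.mem_toFinset]
        refine ⟨hab.1, ?_⟩
        rw [Rb_eval, ← Int.dvd_natAbs, Int.natCast_dvd_natCast]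
        exact (pow_dvd_pow p (hjmin p hp _ hpk)).trans (Nat.ordProj_dvd _ p)
    have hcard : FF.card ≤ K.primeFactors.card * ((2 * H + 1) * (s * ((2 * H + 1) / L + 1))) := by
      refine Finset.card_biUnion_le_card_mul _ _ _ fun p hp => ?_
      have hc : (Finset.Icc (-(H : ℤ)) H).card = 2 * H + 1 := by
        rw [Int.card_Icc]
        omega
      rw [← hc]
      refine Finset.card_biUnion_le_card_mul _ _ _ fun b _ => ?_
      rw [hc]
      refine Finset.card_image_le.trans ?_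
      rw [← Set.ncard_eq_toFinset_card _ (hTfin p b)]
      exact hTcard p hp b
    have hS1 : (S.ncard : ℝ) ≤ w * ((2 * H + 1) * (s * ((2 * H + 1) / L + 1))) := by
      have h1 : S.ncard ≤ FF.card := by
        rw [← Set.ncard_coe_finset FF]
        exact Set.ncard_le_ncard hsub (Finset.finite_toSet _)
      have h2 : (S.ncard : ℝ) ≤
          ((K.primeFactors.card * ((2 * H + 1) * (s * ((2 * H + 1) / L + 1))) : ℕ) : ℝ) := by
        exact_mod_cast h1.trans hcard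
      refine h2.trans ?_
      push_cast
      have h3 : (K.primeFactors.card : ℝ) ≤ w := by exact_mod_cast le_max_left _ _
      have h4 : (((2 * H + 1) / L : ℕ) : ℝ) ≤ (2 * H + 1) / L := by
        have := @Nat.cast_div_le ℝ _ _ _ (2 * H + 1) L
        push_cast at this
        exact this
      gcongr
    have h5 : ((2 : ℝ) * H + 1) / L ≤ 6 * (H : ℝ) ^ (1 - η) := by
      have hLp : (0 : ℝ) < L := by exact_mod_cast hL1
      rw [div_le_iff₀ hLp]
      have h6 : (H : ℝ) = (H : ℝ) ^ (1 - η) * (H : ℝ) ^ η := by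
        rw [← Real.rpow_add hHp]
        simp
      have h7 : (0 : ℝ) ≤ (H : ℝ) ^ (1 - η) := by positivity
      calc (2 : ℝ) * H + 1 ≤ 3 * H := by linarith
        _ = 3 * (H : ℝ) ^ (1 - η) * (H : ℝ) ^ η := by
            nth_rewrite 1 [h6]
            ring
        _ ≤ 3 * (H : ℝ) ^ (1 - η) * (2 * L) := by gcongr
        _ = 6 * (H : ℝ) ^ (1 - η) * L := by ring
    have h8 : (1 : ℝ) ≤ (H : ℝ) ^ (1 - η) := Real.one_le_rpow hH1 (by linarith)
    have h9 : (H : ℝ) * (H : ℝ) ^ (1 - η) = (H : ℝ) ^ (2 - η) := by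
      nth_rewrite 1 [← Real.rpow_one (H : ℝ)]
      rw [← Real.rpow_add hHp]
      congr 1
      ring
    calc (S.ncard : ℝ) ≤ w * ((2 * H + 1) * (s * ((2 * H + 1) / L + 1))) := hS1
      _ ≤ w * ((3 * H) * (s * (7 * (H : ℝ) ^ (1 - η)))) := by
          gcongr
          · linarith
          · linarith
      _ = 21 * w * s * (H * (H : ℝ) ^ (1 - η)) := by ring
      _ = 21 * w * s * (H : ℝ) ^ (2 - η) := by rw [h9]
      _ ≤ C * (H : ℝ) ^ (2 - η) := by
          have : (0 : ℝ) ≤ (2 * H0 + 1) ^ 2 := by positivity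
          have h10 : (21 : ℝ) * w * s ≤ C := by rw [hC]; linarith
          gcongr

end Pool.Agent.EVF.H24
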